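import Pool.Agent.PFC.StmtsB3

set_option autoImplicit false

/-!
# BIJ: a linear map which is the identity up to lower degree is bijective
-/

namespace Pool.Agent.PFC.B3.H23

open MvPolynomial

variable {k I : Type} [CommRing k]

theorem Lt_mono {a b : ℕ} (h : a ≤ b) : Lt k I a ≤ Lt k I b :=
  Submodule.span_mono fun _ ⟨m, hm, hz⟩ => ⟨m, lt_of_lt_of_le hm h, hz⟩

theorem degree_lt_of_mem {f : MvPolynomial I k} {d : ℕ} (hf : f ∈ Lt k I d) (m : I →₀ ℕ)
    (hm : coeff m f ≠ 0) : m.degree < d := by
  classical
  induction hf using Submodule.span_induction with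
  | mem z hz =>
    obtain ⟨m', hm', rfl⟩ := hz
    rw [coeff_monomial] at hm
    split_ifs at hm with h1
    · rwa [← h1]
    · exact absurd rfl hm
  | zero => exact absurd (coeff_zero m) hm
  | add a b _ _ ha hb =>
    by_cases h : coeff m a = 0
    · refine hb fun h' => hm ?_
      rw [coeff_add, h, h', add_zero]
    · exact ha h
  | smul c a _ ha =>
    refine ha fun h => hm ?_
    rw [coeff_smul, h, smul_zero]

theorem sub_mem (T : MvPolynomial I k →ₗ[k] MvPolynomial I k)
    (h : ∀ γ : I →₀ ℕ, T (monomial γ 1) - monomial γ 1 ∈ Lt k I γ.degree)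
    (f : MvPolynomial I k) : T f - f ∈ Lt k I (f.support.sup fun m => m.degree) := by
  have h1 : f = ∑ γ ∈ f.support, coeff γ f • (monomial γ (1 : k)) := by
    conv_lhs => rw [f.as_sum]
    refine Finset.sum_congr rfl fun γ _ => ?_
    rw [smul_monomial, smul_eq_mul, mul_one]
  have h2 : T f - f = ∑ γ ∈ f.support, coeff γ f • (T (monomial γ (1 : k)) - monomial γ 1) := by
    conv_lhs => rw [h1]
    rw [map_sum, ← Finset.sum_sub_distrib]
    refine Finset.sum_congr rfl fun γ _ => ?_
    rw [map_smul, smul_sub]
  rw [h2]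
  exact Submodule.sum_mem _ fun γ hγ => Submodule.smul_mem _ _
    (Lt_mono (Finset.le_sup (f := fun m : I →₀ ℕ => m.degree) hγ) (h γ))

theorem bij : BijStmt := by
  intro k I _ _ T h
  constructor
  · rw [injective_iff_map_eq_zero]
    intro f hf
    by_contra hne
    have hs : f.support.Nonempty := by
      rwa [Finset.nonempty_iff_ne_empty, Ne, MvPolynomial.support_eq_empty]
    obtain ⟨m, hm, hd⟩ := Finset.exists_mem_eq_sup f.support hs fun m => m.degree
    have h1 := sub_mem T h f
    rw [hf, zero_sub, neg_mem_iff] at h1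
    have h2 := degree_lt_of_mem h1 m (mem_support_iff.1 hm)
    rw [hd] at h2
    exact lt_irrefl _ h2
  · have key : ∀ d, Lt k I d ≤ LinearMap.range T := by
      intro d
      induction d with
      | zero =>
        refine Submodule.span_le.2 ?_
        rintro z ⟨m, hm, -⟩
        exact absurd hm (Nat.not_lt_zero _)
      | succ d ih =>
        refine Submodule.span_le.2 ?_
        rintro z ⟨m, hm, rfl⟩
        have h1 : (monomial m (1 : k)) =
            T (monomial m 1) - (T (monomial m 1) - monomial m 1) := by abel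
        rw [h1]
        exact Submodule.sub_mem _ ⟨_, rfl⟩
          (ih (Lt_mono (Nat.lt_succ_iff.1 hm) (h m)))
    intro f
    have h1 : f ∈ LinearMap.range T := by
      rw [f.as_sum]
      refine Submodule.sum_mem _ fun γ _ => ?_
      have h2 : (monomial γ) (coeff γ f) = coeff γ f • (monomial γ (1 : k)) := by
        rw [smul_monomial, smul_eq_mul, mul_one]
      rw [h2]
      exact Submodule.smul_mem _ _ (key (γ.degree + 1)
        (Submodule.subset_span ⟨γ, Nat.lt_succ_self _, rfl⟩))
    exact h1

end Pool.Agent.PFC.B3.H23
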